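import Mathlib

/-!
# Cop number versus optimal pebbling number

We show that the cop number of a finite connected graph is not bounded by its optimal pebbling
number, in the strongest possible sense: there are finite connected graphs whose optimal
pebbling number is at most `4` and whose cop number is arbitrarily large.
-/

set_option autoImplicit false

namespace Pool.Agent.Results.MP_64c30f_co.CopVsPebbling

open Finset

variable {V : Type}

/-- A legal move of a cop or of the robber: stay put, or go along an edge. -/
def Step (G : SimpleGraph V) (u v : V) : Prop := u = v ∨ G.Adj u v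

/-- `k` cops have a winning strategy in the game of cops and robber on `G`.

A strategy `σ` of the `k` cops is a function that, given the list `[ρ 0, …, ρ (t-1)]` of all
positions of the robber so far, gives the positions of the cops after their `t`-th move; so
`σ []` is their initial placement, which they choose before the robber enters.  It is legal
if each cop stays or moves along an edge.  The robber then plays any legal trajectory
`ρ 0, ρ 1, …` (`ρ 0` chosen knowing `σ []`, and so on).  The order of events is `σ []`, `ρ 0`,
`σ [ρ 0]`, `ρ 1`, `σ [ρ 0, ρ 1]`, `ρ 2`, ….  The strategy wins if against every robber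
trajectory some cop eventually occupies the vertex of the robber: either when the robber has
just moved to `ρ t` or after the next move of the cops. -/
def CopsWin (G : SimpleGraph V) (k : ℕ) : Prop :=
  ∃ σ : List V → Fin k → V,
    (∀ (h : List V) (r : V) (i : Fin k), Step G (σ h i) (σ (h ++ [r]) i)) ∧
    ∀ ρ : ℕ → V, (∀ t, Step G (ρ t) (ρ (t + 1))) →
      ∃ (t : ℕ) (i : Fin k),
        σ (List.ofFn fun j : Fin t => ρ j) i = ρ t ∨
        σ (List.ofFn fun j : Fin (t + 1) => ρ j) i = ρ t

/-- The cop number `c(G)`: the least number of cops that have a winning strategy. -/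
noncomputable def copNumber (G : SimpleGraph V) : ℕ := sInf {k | CopsWin G k}

/-- A pebbling move: remove two pebbles from `v` and place one pebble on a neighbour `u`. -/
def PebblingMove [DecidableEq V] (G : SimpleGraph V) (D D' : V → ℕ) : Prop :=
  ∃ v u, G.Adj v u ∧ 2 ≤ D v ∧
    D' = Function.update (Function.update D v (D v - 2)) u (D u + 1)

/-- `r` is reachable from the distribution `D`: some sequence of pebbling moves starting from
`D` leads to a distribution with at least one pebble on `r`. -/
def PebbleReachable [DecidableEq V] (G : SimpleGraph V) (D : V → ℕ) (r : V) : Prop :=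
  ∃ D', Relation.ReflTransGen (PebblingMove G) D D' ∧ 1 ≤ D' r

/-- The optimal pebbling number `π*(G)`: the least size of a distribution from which every
vertex is reachable. -/
noncomputable def optimalPebblingNumber [Fintype V] [DecidableEq V] (G : SimpleGraph V) : ℕ :=
  sInf {m | ∃ D : V → ℕ, ∑ v, D v = m ∧ ∀ r, PebbleReachable G D r}

/-! ### The graph: a hypercube, a private neighbour for each of its vertices, and an apex
joined to all the private neighbours. -/

/-- flip the `i`-th coordinate -/
def flip {d : ℕ} (x : Fin d → Bool) (i : Fin d) : Fin d → Bool := Function.update x i (!x i)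

/-- the vertex set: `none` is the apex, `some (x, false)` the vertices of the hypercube, and
`some (x, true)` the private neighbour of `some (x, false)`. -/
abbrev Vert (d : ℕ) : Type := Option ((Fin d → Bool) × Bool)

/-- the adjacency relation of the graph -/
def adj {d : ℕ} : Vert d → Vert d → Prop
  | none, some (_, true) => True
  | some (_, true), none => True
  | some (x, true), some (y, false) => x = y
  | some (x, false), some (y, true) => x = y
  | some (x, false), some (y, false) => ∃ i, y = flip x i
  | _, _ => False

lemma flip_flip {d : ℕ} (x : Fin d → Bool) (i : Fin d) : flip (flip x i) i = x := by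
  ext j
  by_cases h : j = i
  · subst h; simp [flip]
  · simp [flip, h]

lemma flip_apply_self {d : ℕ} (x : Fin d → Bool) (i : Fin d) : flip x i i = !x i := by
  simp [flip]

lemma flip_apply_ne {d : ℕ} (x : Fin d → Bool) (i j : Fin d) (h : j ≠ i) :
    flip x i j = x j := by
  simp [flip, h]

lemma flip_ne {d : ℕ} (x : Fin d → Bool) (i : Fin d) : flip x i ≠ x := by
  intro h
  have := congrFun h i
  rw [flip_apply_self] at this
  cases hx : x i <;> simp [hx] at this

/-- the graph -/
def graph (d : ℕ) : SimpleGraph (Vert d) where
  Adj := adj
  symm := by
    constructor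
    intro a b h
    rcases a with _ | ⟨x, _ | _⟩ <;> rcases b with _ | ⟨y, _ | _⟩ <;> simp [adj] at h ⊢
    · obtain ⟨i, rfl⟩ := h
      exact ⟨i, (flip_flip x i).symm⟩
    · exact h.symm
    · exact h.symm
  loopless := by
    constructor
    intro a h
    rcases a with _ | ⟨x, _ | _⟩ <;> simp [adj] at h
    obtain ⟨i, hi⟩ := h
    exact flip_ne x i hi.symm

lemma graph_adj {d : ℕ} (a b : Vert d) : (graph d).Adj a b ↔ adj a b := Iff.rfl

lemma connected (d : ℕ) : (graph d).Connected := by
  have h1 : ∀ x, (graph d).Reachable none (some (x, true)) := fun x =>
    SimpleGraph.Adj.reachable (by rw [graph_adj]; simp [adj])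
  have h2 : ∀ x, (graph d).Reachable none (some (x, false)) := fun x =>
    (h1 x).trans (SimpleGraph.Adj.reachable (by rw [graph_adj]; simp [adj]))
  have h3 : ∀ v, (graph d).Reachable none v := by
    intro v
    rcases v with _ | ⟨x, _ | _⟩
    · exact SimpleGraph.Reachable.refl _
    · exact h2 x
    · exact h1 x
  have : Nonempty (Vert d) := ⟨none⟩
  exact ⟨fun u v => (h3 u).symm.trans (h3 v)⟩

lemma pebbling_le_four (d : ℕ) : optimalPebblingNumber (graph d) ≤ 4 := by
  apply Nat.sInf_le
  refine ⟨fun v => if v = none then 4 else 0, by simp, ?_⟩
  intro r
  -- one move from the apex to a private neighbour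
  have key1 : ∀ x, PebblingMove (graph d) (fun v => if v = none then 4 else 0)
      (fun v => if v = none then 2 else if v = some (x, true) then 1 else 0) := by
    intro x
    refine ⟨none, some (x, true), by rw [graph_adj]; simp [adj], by simp, ?_⟩
    ext v
    by_cases h1 : v = some (x, true)
    · subst h1; simp
    · by_cases h2 : v = none
      · subst h2; simp
      · simp [h1, h2]
  have key2 : ∀ x, PebblingMove (graph d)
      (fun v => if v = none then 2 else if v = some (x, true) then 1 else 0)
      (fun v => if v = none then 0 else if v = some (x, true) then 2 else 0) := by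
    intro x
    refine ⟨none, some (x, true), by rw [graph_adj]; simp [adj], by simp, ?_⟩
    ext v
    by_cases h1 : v = some (x, true)
    · subst h1; simp
    · by_cases h2 : v = none
      · subst h2; simp
      · simp [h1, h2]
  have key3 : ∀ x, PebblingMove (graph d)
      (fun v => if v = none then 0 else if v = some (x, true) then 2 else 0)
      (fun v => if v = some (x, false) then 1 else 0) := by
    intro x
    refine ⟨some (x, true), some (x, false), by rw [graph_adj]; simp [adj], by simp, ?_⟩
    ext v
    by_cases h1 : v = some (x, false)
    · subst h1; simp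
    · by_cases h2 : v = some (x, true)
      · subst h2; simp
      · simp [h1, h2]
  rcases r with _ | ⟨x, _ | _⟩
  · exact ⟨_, Relation.ReflTransGen.refl, by simp⟩
  · exact ⟨_, ((Relation.ReflTransGen.single (key1 x)).tail (key2 x)).tail (key3 x), by simp⟩
  · exact ⟨_, Relation.ReflTransGen.single (key1 x), by simp⟩

/-- The set of neighbours of the robber (in the hypercube) threatened by one cop has at most
two elements. -/
lemma threatened_card {d : ℕ} (x : Fin d → Bool) (c : Vert d) (hc : c ≠ some (x, false))
    [DecidablePred fun j => Step (graph d) c (some (flip x j, false))] :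
    (univ.filter fun j => Step (graph d) c (some (flip x j, false))).card ≤ 2 := by
  classical
  rcases c with _ | ⟨y, _ | _⟩
  · -- a cop at the apex threatens nothing
    have : (univ.filter fun j => Step (graph d) none (some (flip x j, false))) = ∅ := by
      apply Finset.filter_eq_empty_iff.2
      intro j _ h
      rcases h with h | h
      · simp at h
      · exact (by simpa [adj] using (show adj none (some (flip x j, false)) from h))
    rw [this]; simp
  · -- a cop in the hypercube
    have hxy : y ≠ x := by
      intro h; subst h; exact hc rfl
    by_cases hne : (univ.filter fun j => Step (graph d) (some (y, false))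
        (some (flip x j, false))) = ∅
    · rw [hne]; simp
    · -- all threatened indices are in the support of the difference
      have hsupp : ∀ j, Step (graph d) (some (y, false)) (some (flip x j, false)) →
          x j ≠ y j ∧ ∃ l, ∀ m, m ≠ j → m ≠ l → x m = y m := by
        intro j hj
        rcases hj with hj | hj
        · have : y = flip x j := by
            have := Option.some.inj hj
            exact (Prod.mk.inj this).1
          subst this
          refine ⟨?_, j, ?_⟩
          · rw [flip_apply_self]; cases x j <;> simp
          · intro m hm _
            rw [flip_apply_ne _ _ _ hm]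
        · have : ∃ l, flip x j = flip y l := by
            simpa [adj] using (show adj (some (y, false)) (some (flip x j, false)) from hj)
          obtain ⟨l, hl⟩ := this
          have hjl : j ≠ l := by
            intro h
            subst h
            apply hxy
            rw [← flip_flip y j, ← hl, flip_flip]
          refine ⟨?_, l, ?_⟩
          · have := congrFun hl j
            rw [flip_apply_self, flip_apply_ne _ _ _ hjl] at this
            rw [← this]; cases x j <;> simp
          · intro m hm hml
            have := congrFun hl m
            rwa [flip_apply_ne _ _ _ hm, flip_apply_ne _ _ _ hml] at this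
      obtain ⟨j0, hj0⟩ := Finset.nonempty_iff_ne_empty.2 hne
      rw [Finset.mem_filter] at hj0
      obtain ⟨-, l, hl⟩ := hsupp j0 hj0.2
      have hsub : (univ.filter fun j => Step (graph d) (some (y, false))
          (some (flip x j, false))) ⊆ {j0, l} := by
        intro j hj
        rw [Finset.mem_filter] at hj
        have h1 := (hsupp j hj.2).1
        by_contra hcon
        simp only [Finset.mem_insert, Finset.mem_singleton, not_or] at hcon
        exact h1 (hl j hcon.1 hcon.2)
      exact (Finset.card_le_card hsub).trans Finset.card_le_two
  · -- a cop at a private neighbour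
    have hsub : ∀ j ∈ (univ.filter fun j => Step (graph d) (some (y, true))
        (some (flip x j, false))), y = flip x j := by
      intro j hj
      rw [Finset.mem_filter] at hj
      rcases hj.2 with h | h
      · simp at h
      · simpa [adj] using (show adj (some (y, true)) (some (flip x j, false)) from h)
    have : (univ.filter fun j => Step (graph d) (some (y, true))
        (some (flip x j, false))).card ≤ 1 := by
      rw [Finset.card_le_one]
      intro a ha b hb
      have h1 := hsub a ha
      have h2 := hsub b hb
      by_contra hab
      have h3 := congrFun (h1.symm.trans h2) a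
      rw [flip_apply_self, flip_apply_ne _ _ _ hab] at h3
      cases hx : x a <;> simp [hx] at h3
    omega

/-- If no cop stands on the robber's vertex, the robber has a safe neighbour. -/
lemma exists_safe {d k : ℕ} (hk : 2 * k < d) (x : Fin d → Bool) (c : Fin k → Vert d)
    (hc : ∀ i, c i ≠ some (x, false)) :
    ∃ j, ∀ i, ¬ Step (graph d) (c i) (some (flip x j, false)) := by
  classical
  by_contra hcon
  push Not at hcon
  have hsub : (univ : Finset (Fin d)) ⊆ (univ : Finset (Fin k)).biUnion fun i =>
      univ.filter fun j => Step (graph d) (c i) (some (flip x j, false)) := by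
    intro j _
    obtain ⟨i, hi⟩ := hcon j
    rw [Finset.mem_biUnion]
    exact ⟨i, Finset.mem_univ _, by simpa using hi⟩
  have h1 := Finset.card_le_card hsub
  have h2 := Finset.card_biUnion_le_card_mul (univ : Finset (Fin k))
    (fun i => univ.filter fun j => Step (graph d) (c i) (some (flip x j, false))) 2
    (fun i _ => threatened_card x (c i) (hc i))
  rw [Finset.card_univ, Fintype.card_fin] at h1
  rw [Finset.card_univ, Fintype.card_fin] at h2
  omega

lemma exists_unoccupied {d k : ℕ} (hk : 2 * k < d) (c : Fin k → Vert d) :
    ∃ x : Fin d → Bool, ∀ i, c i ≠ some (x, false) := by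
  classical
  by_contra hcon
  push Not at hcon
  choose f hf using hcon
  have hinj : Function.Injective f := by
    intro x y hxy
    have h1 := hf x
    have h2 := hf y
    rw [hxy] at h1
    have h3 := h1.symm.trans h2
    simpa using h3
  have h1 := Fintype.card_le_of_injective f hinj
  simp at h1
  have h2 : d < 2 ^ d := Nat.lt_two_pow_self
  omega

/-- With `2 k < d`, `k` cops do not win on the graph. -/
lemma not_copsWin {d k : ℕ} (hk : 2 * k < d) : ¬ CopsWin (graph d) k := by
  classical
  rintro ⟨σ, hσ, hwin⟩
  -- state of the robber: history `h` and position `x`, such that no cop of the placement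
  -- `σ h` can reach `x` in one step
  let S : Type := {s : List (Vert d) × (Fin d → Bool) //
    ∀ i, ¬ Step (graph d) (σ s.1 i) (some (s.2, false))}
  obtain ⟨x0, hx0⟩ := exists_unoccupied hk (σ [])
  obtain ⟨j0, hj0⟩ := exists_safe hk x0 (σ []) hx0
  let s0 : S := ⟨([], flip x0 j0), hj0⟩
  have hnext : ∀ s : S, ∃ j, ∀ i, ¬ Step (graph d)
      (σ (s.1.1 ++ [some (s.1.2, false)]) i) (some (flip s.1.2 j, false)) := by
    intro s
    apply exists_safe hk
    intro i hi
    have h1 := s.2 i
    have h2 := hσ s.1.1 (some (s.1.2, false)) i
    rw [hi] at h2
    exact h1 h2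
  choose nx hnx using hnext
  let step : S → S := fun s =>
    ⟨(s.1.1 ++ [some (s.1.2, false)], flip s.1.2 (nx s)), hnx s⟩
  let s : ℕ → S := fun t => Nat.rec s0 (fun _ s => step s) t
  have hs0 : s 0 = s0 := rfl
  have hs1 : ∀ t, s (t + 1) = step (s t) := fun t => rfl
  let ρ : ℕ → Vert d := fun t => some ((s t).1.2, false)
  have hhist : ∀ t, (s t).1.1 = List.ofFn fun j : Fin t => ρ j := by
    intro t
    induction t with
    | zero => simp [hs0, s0]
    | succ t ih =>
      rw [hs1, List.ofFn_succ']
      show (s t).1.1 ++ [some ((s t).1.2, false)] = _
      rw [ih]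
      simp [ρ, List.concat_eq_append]
  have hρ : ∀ t, Step (graph d) (ρ t) (ρ (t + 1)) := by
    intro t
    right
    rw [graph_adj]
    exact ⟨nx (s t), rfl⟩
  obtain ⟨t, i, h | h⟩ := hwin ρ hρ
  · rw [← hhist t] at h
    exact (s t).2 i (Or.inl h)
  · rw [← hhist (t + 1), hs1] at h
    have h1 := hσ (s t).1.1 (some ((s t).1.2, false)) i
    have h2 : σ ((s t).1.1 ++ [some ((s t).1.2, false)]) i = some ((s t).1.2, false) := h
    rw [h2] at h1
    exact (s t).2 i h1

lemma copsWin_card {V : Type} [Fintype V] (G : SimpleGraph V) : CopsWin G (Fintype.card V) := by
  classical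
  refine ⟨fun _ i => (Fintype.equivFin V).symm i, fun _ _ _ => Or.inl rfl, ?_⟩
  intro ρ _
  exact ⟨0, Fintype.equivFin V (ρ 0), Or.inl (by simp)⟩

/-- **Main theorem.** For every `k` there is a finite connected graph `G` whose optimal pebbling
number is at most `4` and whose cop number is larger than `k`.  (With `k = 4` this gives
`c(G) > π*(G)`.) -/
theorem result (k : ℕ) :
    ∃ (V : Type) (_ : Fintype V) (_ : DecidableEq V) (G : SimpleGraph V),
      G.Connected ∧ optimalPebblingNumber G ≤ 4 ∧ k < copNumber G := by
  classical
  refine ⟨Vert (2 * k + 1), inferInstance, inferInstance, graph (2 * k + 1), connected _,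
    pebbling_le_four _, ?_⟩
  have hne : {m | CopsWin (graph (2 * k + 1)) m}.Nonempty := ⟨_, copsWin_card _⟩
  have hmem := Nat.sInf_mem hne
  by_contra hcon
  push Not at hcon
  have : 2 * copNumber (graph (2 * k + 1)) < 2 * k + 1 := by omega
  exact not_copsWin this hmem

end Pool.Agent.Results.MP_64c30f_co.CopVsPebbling
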